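import Pool.Agent.J4.H48.BC.General

/-!
# Stark units over fields with exactly one complex place: base change from totally real fields

`Qbar` is an algebraic closure of `ℚ` and `ι : Qbar → ℂ` an embedding.  All fields are subfields of
`Qbar`, and Galois groups are described by the automorphisms `GQ` of `Qbar`.

* `F ≠ ℚ` is a totally real field, `K` is any quadratic extension of `F` with exactly one complex
  place (the one given by `ι`), `H ⊇ K` is any finite abelian extension of `F`, and `H₁` is the
  subfield of `H` of the elements which are real under `ι`: the largest subextension in which the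
  real place `v` of `F` given by `ι` splits completely.
* `f` is divisible by the prime numbers which ramify in `H`; `𝔣` is a nonzero ideal of `K`
  divisible by all primes dividing `f`; the set `S` consists of the infinite places of `K` and the
  primes dividing `𝔣`.  `hDR` is the theorem of Siegel, Klingen and Deligne–Ribet for `H/F`.

The conclusion `StarkATR` is the rank one abelian Stark conjecture, in Tate's refined form, for
`H/K`, `S` and the complex place (the other infinite places of `K` are real).

* First part: the conjecture for `H₁/F` and the real place `v` implies the conjecture for `H/K`.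
* Second part: the conjecture for `H/K` holds if `F` is real quadratic (so that `K` is any quartic
  field with one complex place which contains a quadratic field) and `H₁` is contained in an abelian
  extension of an imaginary quadratic field `k`.  Here `N` is the normal closure of `H₁ ⊔ k`, and
  `hS` is Stark's theorem for the abelian extension `N` of `k` and the places of `k` which divide `f`
  or infinity.
-/

set_option autoImplicit false

namespace Pool.Agent.Results.MP_ca56d1_nt.ATRBaseChange

open NumberField Pool.Agent.J4.H48.BC.Stmt
open Pool.Agent.K4H33.SK (Qbar GQ IsTorsionOrder)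
open Pool.Agent.K4H33.SK.Stmt (Sub Ideals principal PrimesOver StarkImQuad)
open Pool.Agent.K4H33.SQ (DeligneRibet StarkATR)
open Pool.Agent.J4.H48.RQ.Stmt (StarkReal)

theorem result (ι : Qbar →+* ℂ) (F K H H₁ : Sub) [NumberField F] [NumberField K] [NumberField H]
    (hF : Fields ι F K H H₁) (f : ℕ) (artF : Ideals F → GQ) (artK : Ideals K → GQ)
    (hart : Symbols F K H f artF artK) (hDR : DeligneRibet F H (principal F f) artF)
    (W : ℕ) (hW : IsTorsionOrder H W) (𝔣 : Ideals K) (h𝔣 : PrimesOver K f 𝔣) :
    (StarkReal ι F H₁ (principal F f) artF 2 → StarkATR ι K H 𝔣 artK W) ∧
    ∀ (k N : Sub) [NumberField k] [NumberField N] (ζ : Qbar) (art : Ideals k → GQ) (W' : ℕ),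
      ImQuadType ι F k H₁ N → Level F k N f ζ art artF → IsTorsionOrder N W' →
      StarkImQuad ι k N (principal k f) art W' → StarkATR ι K H 𝔣 artK W :=
  ⟨fun hS => stark_base_change ι F K H H₁ hF f artF artK hart hDR hS W hW 𝔣 h𝔣,
    fun k N _ _ ζ art W' hk hf hW' hS =>
      stark_atr_quartic ι F K k H H₁ N hF hk f ζ art artF artK hart hf W' hW' hS hDR W hW 𝔣 h𝔣⟩

end Pool.Agent.Results.MP_ca56d1_nt.ATRBaseChange
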