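import Pool.Agent.J4.H17.SR2.All

/-!
# The rank one abelian Stark conjecture in Tate's form: Galois groups with at most one noncyclic Sylow
# subgroup and arbitrarily large sets of places suffice

`K` is a number field, `v` an archimedean place of `K`, `H/K` a finite abelian extension in which `v`
splits completely, `S` the set of the archimedean places and of the primes dividing `𝔣`.

Theorem: the conjecture `Q1` holds for `H/K`, `S`, `v` if and only if for every prime `ℓ` and every
intermediate field `L` with `[H : L]` prime to `ℓ`, such that the Sylow `q`-subgroups of `Gal(L/K)` are cyclic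
for all primes `q ≠ ℓ` (that is, `Gal(L/K)` is the product of an `ℓ`-group and a cyclic group), there is
a number `n` prime to `ℓ` such that the following holds for the `n`-th power of the Stark unit:

* `Q1` for `L/K` and `S`; or
* if `K` has a real place different from `v` and `L` is not the maximal `2`-extension of `K` inside `H`:
  for some `N`, `Q1` for `L/K` and sets `S'` which contain `S` and `N` further primes, chosen one after
  the other such that at each step the Frobenius automorphisms of the admissible primes generate
  `Gal(L/K)`.

(If `K` has no real place different from `v`, then `K` is `ℚ` or imaginary quadratic, where the conjecture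
is known, or there is a complex place different from `v` and the Stark units are trivial.)

So for the proof of `Q1` over `K` one may assume that at most one Sylow subgroup of the Galois group is not
cyclic, and, if the Galois group is not a `2`-group, that `S` is as large as one likes. It was known that
`Q1` for `S` implies `Q1` for larger sets and `Q1` for `H` implies `Q1` for subfields (Tate).

`StarkUpTo` is the conjecture for given continuations of the partial zeta functions of the field in
question. The existence of the continuations (a theorem of Hecke) is a hypothesis in the known direction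
only, where `Q1` for `H` is shown to imply `Q1` for the subfields `L`.

The proof: for every prime `ℓ` an integer prime to `ℓ` lies in the ideal of `ℤ[G]` generated by the norm
elements of the subgroups `J` with `G/J` as above (a maximal ideal of residue characteristic `ℓ` containing
them gives a character of `G` with values in a field of characteristic `ℓ`). Adding a prime with
Frobenius automorphism `g` multiplies the Stark unit by `1 - g⁻¹`; the complex conjugation `c` at a real
place different from `v` inverts the Stark units, and `2 = (1 + c) + (1 - c)`; for `ℓ = 2` one compares with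
the norm to the maximal `2`-extension.
-/

set_option autoImplicit false

open Pool.Agent.K4H33.SK Pool.Agent.K4H33.SK.Stmt
open Pool.Agent.J4.H17.SR (Sub NotAbove Splits AbelianOver DegreePrimeTo CyclicSylow TwoExtension)
open Pool.Agent.J4.H17.SR2 (StarkUpTo LargeSets)

namespace Pool.Agent.Results.MP_ca56d1_nt.LargeSetsOfPlaces

/-- **At most one noncyclic Sylow subgroup and arbitrarily large sets of places suffice.** The first
part is the reduction; the second part, `Q1` for `H` implies `Q1` for the subfields `L` (the first
alternative of the condition, with `n = 1`), is the known converse. -/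
theorem result (ι : Qbar →+* ℂ) (K H : Pool.Agent.J4.H17.SR.Sub) [NumberField K]
    [FiniteDimensional ℚ H] (hKH : K ≤ H) (hab : AbelianOver K H) (_hsp : Splits ι K H)
    (𝔣 : Ideals K) (art : Ideals K → GQ) (hart : Stmt.IsArtin K H 𝔣 art) :
    ((∀ ℓ : ℕ, ℓ.Prime → ∀ L : Pool.Agent.J4.H17.SR.Sub, K ≤ L → L ≤ H → DegreePrimeTo ℓ L H →
        (∀ q : ℕ, q.Prime → q ≠ ℓ → CyclicSylow q K L) →
          ∃ n : ℕ, ¬ ℓ ∣ n ∧ (StarkUpTo n ι K L 𝔣 art ∨
            ((∃ w : Qbar →+* ℂ, NotAbove ι K w ∧ ∀ x ∈ K, (w x).im = 0) ∧
              ¬ (ℓ = 2 ∧ TwoExtension K L) ∧ ∃ N, LargeSets N n ι K L 𝔣 art))) →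
      StarkUpTo 1 ι K H 𝔣 art) ∧
    ((∀ σ : GQ, Fixes K σ → ∃ Z, IsZeta (Stmt.cnt K H 𝔣 art σ) Z) →
      StarkUpTo 1 ι K H 𝔣 art →
        ∀ L : Pool.Agent.J4.H17.SR.Sub, K ≤ L → L ≤ H → StarkUpTo 1 ι K L 𝔣 art) :=
  ⟨fun h => Pool.Agent.J4.H17.SR2.main_all ι K H hKH hab 𝔣 art hart h,
    fun hcont hS L hKL hLH =>
      Pool.Agent.J4.H17.SR2.stark_down ι K L H hKL hLH hab 𝔣 art hart hcont 1 hS⟩

end Pool.Agent.Results.MP_ca56d1_nt.LargeSetsOfPlaces
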