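import Pool.Agent.J4.H9.SC.Triv

/-!
# The rank one abelian Stark conjecture in Tate's form: from large sets of places to small ones, up to
# powers of two

`K` is a number field, `v` an archimedean place of `K` (given by `ι`) such that `K` has a real place
different from `v`, `H/K` a finite abelian extension in which `v` splits completely, `S` the set of the
archimedean places and of the primes dividing `𝔣`.

Theorem: suppose that the conjecture `Q1`, for the `n`-th power of the Stark unit, holds for `H/K` and
sets `S'` which contain `S` and `N` further primes, chosen one after the other such that at each step the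
Frobenius automorphisms of the admissible primes generate `Gal(H/K)`. Then `Q1` holds for `H/K` and `S`
for the `2 ^ N n`-th power of the Stark unit: a unit with the properties of this power exists, and its
`W`-th roots (`W` is the number of roots of unity of `H`) generate an abelian extension of `K`.

For the set `S` itself only `Q1` for the trivial extension `K/K`, up to some factor, is assumed. It is
classical for `𝔣 ≠ (1)`: there are at least three places in `S`, so the zeta function of `K` without the
Euler factors at `S` has a double zero at `0`, and the unit is `1`. Nothing is assumed for `H/K` and `S`.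
In `LargeSetsOfPlaces` (helper17) the exact conjecture is shown under the condition that it holds (up to an odd
exponent) for the maximal `2`-extension of `K` in `H` and `S`.

`StarkUpTo` is the conjecture for given continuations of the partial zeta functions.

Proof. Adding a prime with Frobenius automorphism `g` multiplies the Stark unit by `1 - g⁻¹`. So the
units for large sets give the `1 - g`-multiples for all `g` in the Galois group. The complex conjugation
`c` at a real place different from `v` inverts the Stark units, so `1 - c` is multiplication by `2`.
-/

set_option autoImplicit false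

open Pool.Agent.K4H33.SK Pool.Agent.K4H33.SK.Stmt
open Pool.Agent.J4.H17.SR (Sub NotAbove Splits AbelianOver)
open Pool.Agent.J4.H17.SR2 (StarkUpTo LargeSets)

namespace Pool.Agent.Results.MP_ca56d1_nt.PowersOfTwo

/-- **From large sets of places to small ones, up to powers of two.** -/
theorem result (ι : Qbar →+* ℂ) (K H : Pool.Agent.J4.H17.SR.Sub) [NumberField K]
    [FiniteDimensional ℚ H] (hKH : K ≤ H) (hab : AbelianOver K H) (_hsp : Splits ι K H)
    (hw : ∃ w : Qbar →+* ℂ, NotAbove ι K w ∧ ∀ x ∈ K, (w x).im = 0)
    (𝔣 : Ideals K) (art : Ideals K → GQ) (hart : Stmt.IsArtin K H 𝔣 art)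
    (hK : ∃ m : ℕ, m ≠ 0 ∧ StarkUpTo m ι K K 𝔣 art)
    (N n : ℕ) (hn : n ≠ 0) (h : LargeSets N n ι K H 𝔣 art) :
    StarkUpTo (2 ^ N * n) ι K H 𝔣 art := by
  obtain ⟨m, hm, h0⟩ := hK
  exact Pool.Agent.J4.H9.SC.pow_two ι K H hKH hab hw 𝔣 art hart
    (Pool.Agent.J4.H9.SC.double_zero ι K hw 𝔣 art m hm h0) N n hn h

end Pool.Agent.Results.MP_ca56d1_nt.PowersOfTwo
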