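import Pool.Agent.J4.H48.RQ.General

/-!
# Stark units over real quadratic fields, of imaginary quadratic type

`Qbar` is an algebraic closure of `ℚ` and `ι : Qbar → ℂ` an embedding.  All fields are subfields of
`Qbar`, and Galois groups are described by the automorphisms `GQ` of `Qbar`.

* `K` is a real quadratic field, `v` its real place given by `ι`, and `H` is any finite abelian
  extension of `K` in which `v` splits completely and which is contained in an abelian extension of
  some imaginary quadratic field `k`.
* `N` is the normal closure of `H ⊔ k` over `ℚ` (it is abelian over `k`), `f` is divisible by the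
  primes which ramify in `N`, and the `f`-th cyclotomic field contains the largest subfield of `N`
  which is abelian over `ℚ`; `𝔣` is a nonzero ideal of `K` divisible by all primes dividing `f`.  The
  set `S` consists of the infinite places of `K` and the primes dividing `𝔣`.
* `hS` is Stark's theorem for the abelian extension `N` of the imaginary quadratic field `k` and the
  places of `k` which divide `f` or infinity.

The conclusion is the rank one abelian Stark conjecture, in Tate's refined form, for `H/K`, `S` and
`v`: the field `H` has exactly two roots of unity, and there is a unit `ε` of `H`, of absolute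
value one at all infinite places which do not lie above `v`, with `log |σ ε|_v = - 2 ζ_S'(σ, 0)` for
all `σ`, and such that `H(√ε)` is abelian over `K`.
-/

set_option autoImplicit false

namespace Pool.Agent.Results.MP_ca56d1_nt.RealQuadraticStark

open NumberField Pool.Agent.J4.H48.RQ.Stmt
open Pool.Agent.K4H33.SK (Qbar GQ IsTorsionOrder)
open Pool.Agent.K4H33.SK.Stmt (Sub Ideals principal PrimesOver StarkImQuad)

theorem result (ι : Qbar →+* ℂ) (K k H N : Sub) [NumberField K] [NumberField k] [NumberField N]
    (hF : Fields ι K k H N) (f : ℕ) (ζ : Qbar) (hf : Level N f ζ) (art : Ideals k → GQ)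
    (artK : Ideals K → GQ) (hart : Symbols K k N f ζ art artK) (W' : ℕ)
    (hW' : IsTorsionOrder N W') (hS : StarkImQuad ι k N (principal k f) art W') (𝔣 : Ideals K)
    (h𝔣 : PrimesOver K f 𝔣) : IsTorsionOrder H 2 ∧ StarkReal ι K H 𝔣 artK 2 :=
  stark_real_general ι K k H N hF f ζ hf art artK hart W' hW' hS 𝔣 h𝔣

end Pool.Agent.Results.MP_ca56d1_nt.RealQuadraticStark
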